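import Pool.Agent.Lib.MP_dd334f_gt.Bridge

/-!
# Simple closed curves do not span on the Hitchin component of a genus-2 surface, `n = 4`

Let `π = ⟨a, b, c, d | [a,b][c,d] = 1⟩` be the fundamental group of the closed orientable surface
of genus two. No family of differentiable class functions on `PSL(4, ℝ)` has the spanning
property on the Hitchin component of `π` in `PSL(4, ℝ)`: the differentials `d f_γ`, `γ` simple,
do not generate the cotangent space at the Fuchsian points `[ι₄ ∘ ρ₀]`.

The definitions used in the statement are in `StmtA` and `StmtB` in `Pool.Agent.Lib.MP_dd334f_gt`,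
those of `π` and of its simple elements in `Group` there, and that of the irreducible
representation `ι₄` in `Sym3`.

Idea of the proof. The hyperelliptic involution `ι` of `π` sends each simple `γ` to a conjugate of
`γ` or of `γ⁻¹`, and it preserves the character of every representation in `SL(2, ℝ)`, so it acts
on `H¹(π, sl(4))` at a Fuchsian point. In the summand `H¹(π, Sym⁶ ℝ²)` of
`H¹(π, sl(4)) = H¹(π, Sym² ℝ²) ⊕ H¹(π, Sym⁴ ℝ²) ⊕ H¹(π, Sym⁶ ℝ²)` it has a nonzero anti-invariant
class. Such a class is tangent to the space of representations in `PSp(4, ℝ)`, where a class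
function takes the same value at `g` and at `g⁻¹`; so all the `d f_γ`, `γ` simple, kill it.
-/

open scoped MatrixGroups
open Pool.Agent.MP_dd334f_gt.Stmt

namespace Pool.Agent.Results.MP_dd334f_gt.SimpleSpanningFails

/-- There is a discrete and faithful `ρ₀ : π → PSL(2, ℝ)` that lifts to `SL(2, ℝ)`; and for every
such `ρ₀` and every family `F` of differentiable class functions on `PSL(4, ℝ)`, the
differentials `d f_γ` (`f ∈ F`, `γ` simple) do not generate the cotangent space at `[ι₄ ∘ ρ₀]`,
so that `F` does not have the spanning property on the Hitchin component of `[ι₄ ∘ ρ₀]`. -/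
theorem result :
    (∃ ρ₀ : Rep 2, IsDiscreteFaithful ρ₀ ∧ LiftsToSL2 ρ₀) ∧
    ∀ ρ₀ : Rep 2, IsDiscreteFaithful ρ₀ → LiftsToSL2 ρ₀ → ∀ F : Set (ClassFn 4),
      ¬ SpansAt F ρ₀.iota ∧ ¬ HasSpanningProperty F ρ₀ := by
  refine ⟨Pool.Agent.MP_dd334f_gt.stmt_exists, fun ρ₀ hρ hl F => ?_⟩
  have h := Pool.Agent.MP_dd334f_gt.stmt_not_spansAt ρ₀ hρ.injective hl F
  exact ⟨h, fun hF => h (hF _ mem_connectedComponent)⟩

end Pool.Agent.Results.MP_dd334f_gt.SimpleSpanningFails
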